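import Pool.Agent.H74.GB.EN2

/-! The diagonal trick: `P = k[z][y]`, `x = y + z`, the ideal `I(x)P + J(y)P`. -/

namespace Pool.Agent.H74.GB

open MvPolynomial Pool.Agent.H6.CMT

variable (k : Type*) [Field k] (h : ℕ)

/-- polynomials in `y` over `k[z]` -/
abbrev PP := MvPolynomial (Fin h) (MvPolynomial (Fin h) k)

/-- substitution of `y` -/
noncomputable def sg : MvPolynomial (Fin h) k →ₐ[k] PP k h := aeval (fun l => X l)

/-- substitution of `x = y + z` -/
noncomputable def ta : MvPolynomial (Fin h) k →ₐ[k] PP k h := aeval (fun l => X l + C (X l))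

/-- the diagonal `z = 0` -/
noncomputable def ev : PP k h →+* MvPolynomial (Fin h) k := map constantCoeff

/-- the ideal of the diagonal -/
noncomputable def ZZ : Ideal (PP k h) := Ideal.map C (irr k h)

variable {k h}

theorem ev_sg (f : MvPolynomial (Fin h) k) : ev k h (sg k h f) = f := by
  induction f using MvPolynomial.induction_on with
  | C a => simp [ev, sg, MvPolynomial.algebraMap_eq]
  | add p q hp hq => rw [map_add, map_add, hp, hq]
  | mul_X p j hp =>
    rw [map_mul, map_mul, hp]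
    simp [ev, sg]

theorem ev_ta (f : MvPolynomial (Fin h) k) : ev k h (ta k h f) = f := by
  induction f using MvPolynomial.induction_on with
  | C a => simp [ev, ta, MvPolynomial.algebraMap_eq]
  | add p q hp hq => rw [map_add, map_add, hp, hq]
  | mul_X p j hp =>
    rw [map_mul, map_mul, hp]
    simp [ev, ta]

theorem mem_ZZ (p : PP k h) : p ∈ ZZ k h ↔ ev k h p = 0 := by
  rw [ZZ, mem_map_C_iff]
  constructor
  · intro hp
    ext m
    rw [ev, coeff_map, coeff_zero]
    exact constantCoeff_of_mem _ (hp m)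
  · intro hp m
    have h1 : constantCoeff (coeff m p) = 0 := by
      have := congrArg (coeff m) hp
      rwa [ev, coeff_map, coeff_zero] at this
    have h2 := sub_C_mem (coeff m p)
    rwa [h1, map_zero, sub_zero] at h2

/-- an element of the extended ideal equals the substitution of its restriction to the diagonal,
up to `ZZ` times the extended ideal -/
theorem ext_mem (s : MvPolynomial (Fin h) k →+* PP k h) (hs : ∀ f, ev k h (s f) = f)
    (I : Ideal (MvPolynomial (Fin h) k)) (G : PP k h) (hG : G ∈ Ideal.map s I) :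
    ev k h G ∈ I ∧ G - s (ev k h G) ∈ ZZ k h * Ideal.map s I := by
  induction hG using Submodule.span_induction with
  | mem x hx =>
    obtain ⟨f, hf, rfl⟩ := hx
    rw [hs]
    exact ⟨hf, by rw [sub_self]; exact Ideal.zero_mem _⟩
  | zero => simp
  | add x y _ _ hx hy =>
    rw [map_add, map_add]
    refine ⟨I.add_mem hx.1 hy.1, ?_⟩
    have : x + y - (s (ev k h x) + s (ev k h y)) =
        (x - s (ev k h x)) + (y - s (ev k h y)) := by ring
    rw [this]
    exact Ideal.add_mem _ hx.2 hy.2
  | smul a x _ hx =>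
    rw [smul_eq_mul, map_mul, map_mul]
    refine ⟨I.mul_mem_left _ hx.1, ?_⟩
    have : a * x - s (ev k h a) * s (ev k h x) =
        a * (x - s (ev k h x)) + (a - s (ev k h a)) * s (ev k h x) := by ring
    rw [this]
    refine Ideal.add_mem _ (Ideal.mul_mem_left _ _ hx.2) (Ideal.mul_mem_mul ?_ ?_)
    · rw [mem_ZZ, map_sub, hs, sub_self]
    · exact Ideal.mem_map_of_mem s hx.1

/-- the ideal `I(x)P + J(y)P` -/
noncomputable def KK (I J : Ideal (MvPolynomial (Fin h) k)) : Ideal (PP k h) :=
  Ideal.map (ta k h).toRingHom I ⊔ Ideal.map (sg k h).toRingHom J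

theorem ta_mem (I J : Ideal (MvPolynomial (Fin h) k)) (f : MvPolynomial (Fin h) k) (hf : f ∈ I) :
    ta k h f ∈ KK I J :=
  (le_sup_left : Ideal.map (ta k h).toRingHom I ≤ KK I J) (Ideal.mem_map_of_mem _ hf)

theorem sg_mem (I J : Ideal (MvPolynomial (Fin h) k)) (f : MvPolynomial (Fin h) k) (hf : f ∈ J) :
    sg k h f ∈ KK I J :=
  (le_sup_right : Ideal.map (sg k h).toRingHom J ≤ KK I J) (Ideal.mem_map_of_mem _ hf)

/-- structure of the elements of `KK` -/
theorem KK_structure (I J : Ideal (MvPolynomial (Fin h) k)) (F : PP k h) (hF : F ∈ KK I J) :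
    ∃ g ∈ I, ev k h F - g ∈ J ∧
      F - (ta k h g + sg k h (ev k h F - g)) ∈ ZZ k h * KK I J := by
  obtain ⟨G, hG, H, hH, rfl⟩ := Submodule.mem_sup.1 hF
  obtain ⟨hG1, hG2⟩ := ext_mem (ta k h).toRingHom ev_ta I G hG
  obtain ⟨hH1, hH2⟩ := ext_mem (sg k h).toRingHom ev_sg J H hH
  refine ⟨ev k h G, hG1, ?_, ?_⟩
  · rw [map_add, add_sub_cancel_left]
    exact hH1
  · rw [map_add, add_sub_cancel_left]
    have : G + H - (ta k h (ev k h G) + sg k h (ev k h H)) =
        (G - ta k h (ev k h G)) + (H - sg k h (ev k h H)) := by ring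
    rw [this]
    exact Ideal.add_mem _ (Ideal.mul_mono_right le_sup_left hG2)
      (Ideal.mul_mono_right le_sup_right hH2)

theorem ta_sub_sg_mem_ZZ (f : MvPolynomial (Fin h) k) : ta k h f - sg k h f ∈ ZZ k h := by
  rw [mem_ZZ, map_sub, ev_ta, ev_sg, sub_self]

/-- elements of `IJ` give elements of `ZZ * KK` -/
theorem ta_sub_sg_mem (I J : Ideal (MvPolynomial (Fin h) k)) (w : MvPolynomial (Fin h) k)
    (hw : w ∈ I * J) : ta k h w - sg k h w ∈ ZZ k h * KK I J := by
  induction hw using Submodule.mul_induction_on' with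
  | mem_mul_mem p hp q hq =>
    rw [map_mul, map_mul]
    have : ta k h p * ta k h q - sg k h p * sg k h q =
        (ta k h q - sg k h q) * ta k h p + (ta k h p - sg k h p) * sg k h q := by ring
    rw [this]
    exact Ideal.add_mem _ (Ideal.mul_mem_mul (ta_sub_sg_mem_ZZ q) (ta_mem I J p hp))
      (Ideal.mul_mem_mul (ta_sub_sg_mem_ZZ p) (sg_mem I J q hq))
  | add x _ y _ hx hy =>
    rw [map_add, map_add]
    have : ta k h x + ta k h y - (sg k h x + sg k h y) =
        (ta k h x - sg k h x) + (ta k h y - sg k h y) := by ring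
    rw [this]
    exact Ideal.add_mem _ hx hy

theorem sub_pow_mem_aux {R : Type*} [CommRing R] (I : Ideal R) (a b z : R) (c : ℕ)
    (hz : z + b = a) (ha : a ^ c ∈ I) (hb : b ^ c ∈ I) : z ^ (c + c) ∈ I := by
  have h1 : z = a + -b := by rw [← hz]; ring
  rw [h1]
  refine Ideal.add_pow_mem_of_pow_mem_of_le (m := c) (n := c) _ ha ?_ (by omega)
  rw [neg_pow]
  exact Ideal.mul_mem_left _ _ hb

/-- powers of the coordinates of the diagonal lie in `KK` -/
theorem z_pow_mem (I J : Ideal (MvPolynomial (Fin h) k)) (c : ℕ) (hI : irr k h ^ c ≤ I)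
    (hJ : irr k h ^ c ≤ J) (l : Fin h) : (C (X l) : PP k h) ^ (c + c) ∈ KK I J := by
  refine sub_pow_mem_aux (KK I J) (ta k h (X l)) (sg k h (X l)) (C (X l)) c ?_ ?_ ?_
  · rw [ta, sg, aeval_X, aeval_X, add_comm]
  · rw [← map_pow]
    exact ta_mem I J _ (hI (Ideal.pow_mem_pow (X_mem_irr l) c))
  · rw [← map_pow]
    exact sg_mem I J _ (hJ (Ideal.pow_mem_pow (X_mem_irr l) c))

end Pool.Agent.H74.GB
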