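import Pool.Agent.H6.CMT.Curv
import Pool.Agent.H74.GB.Diag

/-! Box coefficients. -/

namespace Pool.Agent.H74.GB

open MvPolynomial Pool.Agent.H6.CMT

variable {k : Type*} [Field k] {h : ℕ}

/-- the exponent of a point of the box -/
noncomputable def ex {D : ℕ} (ν : Fin h → Fin (D + 1)) : Fin h →₀ ℕ :=
  Finsupp.equivFunOnFinite.symm (fun i => (ν i : ℕ))

theorem ex_apply {D : ℕ} (ν : Fin h → Fin (D + 1)) (i : Fin h) : ex ν i = (ν i : ℕ) := rfl

theorem ex_injective {D : ℕ} : Function.Injective (ex (h := h) (D := D)) := by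
  intro ν ν' hν
  funext i
  apply Fin.ext
  have := congrArg (fun m : Fin h →₀ ℕ => m i) hν
  exact this

theorem ex_zero {D : ℕ} : ex (0 : Fin h → Fin (D + 1)) = 0 := by
  ext i
  rfl

/-- box coefficients over `k` -/
noncomputable def Phi0 (k : Type*) [Field k] (h D : ℕ) :
    MvPolynomial (Fin h) k →ₗ[k] ((Fin h → Fin (D + 1)) → k) :=
  LinearMap.pi (fun ν => lcoeff k (ex ν))

/-- box coefficients over `k[z]` -/
noncomputable def Phi (k : Type*) [Field k] (h D : ℕ) :
    PP k h →ₗ[MvPolynomial (Fin h) k] ((Fin h → Fin (D + 1)) → MvPolynomial (Fin h) k) :=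
  LinearMap.pi (fun ν => lcoeff (MvPolynomial (Fin h) k) (ex ν))

theorem Phi0_apply (D : ℕ) (f : MvPolynomial (Fin h) k) (ν : Fin h → Fin (D + 1)) :
    Phi0 k h D f ν = coeff (ex ν) f := rfl

theorem Phi_apply (D : ℕ) (F : PP k h) (ν : Fin h → Fin (D + 1)) :
    Phi k h D F ν = coeff (ex ν) F := rfl

theorem sg_eq_map (f : MvPolynomial (Fin h) k) : sg k h f = map C f := by
  induction f using MvPolynomial.induction_on with
  | C a => simp [sg, MvPolynomial.algebraMap_eq]
  | add p q hp hq => rw [map_add, map_add, hp, hq]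
  | mul_X p j hp =>
    rw [map_mul, map_mul, hp]
    simp [sg]

theorem Phi_sg (D : ℕ) (f : MvPolynomial (Fin h) k) (hf : Phi0 k h D f = 0) :
    Phi k h D (sg k h f) = 0 := by
  funext ν
  rw [Phi_apply, sg_eq_map, coeff_map]
  have := congrFun hf ν
  rw [Phi0_apply] at this
  rw [this, Pi.zero_apply, Pi.zero_apply, map_zero]

theorem mem_of_Phi0 (D : ℕ) (K : Ideal (MvPolynomial (Fin h) k))
    (hK : ∀ i : Fin h, (X i : MvPolynomial (Fin h) k) ^ (D + 1) ∈ K)
    (f : MvPolynomial (Fin h) k) (hf : Phi0 k h D f = 0) : f ∈ K := by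
  rw [f.as_sum]
  refine Ideal.sum_mem _ (fun m hm => ?_)
  have hex : ∃ i, D + 1 ≤ m i := by
    by_contra hcon
    push Not at hcon
    rw [mem_support_iff] at hm
    apply hm
    have h1 : m = ex (fun i => (⟨m i, hcon i⟩ : Fin (D + 1))) := by
      ext i
      rfl
    have h2 := congrFun hf (fun i => (⟨m i, hcon i⟩ : Fin (D + 1)))
    rw [Phi0_apply, ← h1] at h2
    exact h2
  obtain ⟨i, hi⟩ := hex
  have h3 : monomial m (coeff m f) =
      monomial (m - Finsupp.single i (D + 1)) (coeff m f) * X i ^ (D + 1) := by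
    rw [X_pow_eq_monomial, monomial_mul, mul_one]
    congr 1
    rw [tsub_add_cancel_of_le]
    rw [Finsupp.single_le_iff]
    exact hi
  rw [h3]
  exact Ideal.mul_mem_left _ _ (hK i)

theorem Phi0_surjective (D : ℕ) : Function.Surjective (Phi0 k h D) := by
  classical
  intro v
  refine ⟨∑ ν, monomial (ex ν) (v ν), ?_⟩
  funext ν
  rw [Phi0_apply, coeff_sum, Finset.sum_eq_single ν]
  · rw [coeff_monomial, if_pos rfl]
  · intro ν' _ hne
    rw [coeff_monomial, if_neg (fun hh => hne (ex_injective hh))]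
  · intro hn
    exact absurd (Finset.mem_univ _) hn

/-- `dim S/K + dim Φ₀(K) = |box|` -/
theorem finrank_box (D : ℕ) (K : Ideal (MvPolynomial (Fin h) k))
    (hK : ∀ i : Fin h, (X i : MvPolynomial (Fin h) k) ^ (D + 1) ∈ K) :
    Module.finrank k (MvPolynomial (Fin h) k ⧸ K) +
      Module.finrank k (Submodule.map (Phi0 k h D) (K.restrictScalars k)) =
      Fintype.card (Fin h → Fin (D + 1)) := by
  classical
  set K0 := Submodule.map (Phi0 k h D) (K.restrictScalars k) with hK0
  let θ : MvPolynomial (Fin h) k →ₗ[k] (((Fin h → Fin (D + 1)) → k) ⧸ K0) :=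
    K0.mkQ ∘ₗ Phi0 k h D
  have hker : LinearMap.ker θ = K.restrictScalars k := by
    ext f
    rw [LinearMap.mem_ker, Submodule.restrictScalars_mem]
    change K0.mkQ (Phi0 k h D f) = 0 ↔ _
    rw [Submodule.mkQ_apply, Submodule.Quotient.mk_eq_zero, hK0, Submodule.mem_map]
    constructor
    · rintro ⟨g, hg, hgf⟩
      have h1 : g - f ∈ K := mem_of_Phi0 D K hK _ (by rw [map_sub, hgf, sub_self])
      have h2 : g ∈ K := hg
      have := K.sub_mem h2 h1
      simpa using this
    · intro hf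
      exact ⟨f, hf, rfl⟩
  have hsurj : Function.Surjective θ :=
    (Submodule.mkQ_surjective K0).comp (Phi0_surjective D)
  have e1 := (θ.quotKerEquivOfSurjective hsurj).finrank_eq
  have e2 : Module.finrank k (MvPolynomial (Fin h) k ⧸ LinearMap.ker θ) =
      Module.finrank k (MvPolynomial (Fin h) k ⧸ K) := by
    rw [hker]
    exact (Submodule.Quotient.restrictScalarsEquiv k K).finrank_eq
  rw [← e2, e1]
  have e3 := Submodule.finrank_quotient_add_finrank K0
  rw [e3, Module.finrank_fintype_fun_eq_card]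

end Pool.Agent.H74.GB
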