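import Pool.Agent.H74.GB.Box

/-! The lower bound `l((I ∩ J)/IJ) ≥ l(S/(I+J)) + h - 1`. -/

namespace Pool.Agent.H74.GB

open MvPolynomial Pool.Agent.H6.CMT

variable {k : Type*} [Field k] {h : ℕ}

theorem EN'' {ι B : Type*} [Fintype ι] [DecidableEq ι] [Fintype B] (hh : 0 < h)
    (χ : B → Option ι → MvPolynomial (Fin h) k) (hχ : ∀ j, χ j none ∈ irr k h)
    (u : MvPolynomial (Fin h) k) (hu : u ∉ irr k h) (n : ℕ)
    (hgen : ∀ (l : Fin h) (i : Option ι), ∃ a : B → MvPolynomial (Fin h) k,
      ∀ i', ∑ j, a j * χ j i' = if i' = i then u * X l ^ n else 0) :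
    Fintype.card ι + h ≤ Fintype.card B := by
  let e := Fintype.equivFin B
  refine EN' hh (fun j => χ (e.symm j)) (fun j => hχ _) u hu n ?_
  intro l i
  obtain ⟨a, ha⟩ := hgen l i
  refine ⟨fun j => a (e.symm j), fun i' => ?_⟩
  rw [← ha i']
  exact Equiv.sum_comp e.symm (fun j => a j * χ j i')

/-- `KK` as a `k[z]`-module, in box coordinates -/
noncomputable def NN (I J : Ideal (MvPolynomial (Fin h) k)) (D : ℕ) :
    Submodule (MvPolynomial (Fin h) k) ((Fin h → Fin (D + 1)) → MvPolynomial (Fin h) k) :=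
  Submodule.map (Phi k h D) ((KK I J).restrictScalars (MvPolynomial (Fin h) k))

theorem Phi_mem (I J : Ideal (MvPolynomial (Fin h) k)) (D : ℕ) (F : PP k h) (hF : F ∈ KK I J) :
    Phi k h D F ∈ NN I J D := ⟨F, hF, rfl⟩

theorem Phi_ZZ (I J : Ideal (MvPolynomial (Fin h) k)) (D : ℕ) (F : PP k h)
    (hF : F ∈ ZZ k h * KK I J) : Phi k h D F ∈ irr k h • NN I J D := by
  have key : ∀ p ∈ ZZ k h, ∀ q ∈ KK I J, Phi k h D (p * q) ∈ irr k h • NN I J D := by
    intro p hp
    rw [ZZ, Ideal.map] at hp
    induction hp using Submodule.span_induction with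
    | mem x hx =>
      obtain ⟨a, ha, rfl⟩ := hx
      intro q hq
      have h1 : C a * q = a • q := (MvPolynomial.smul_eq_C_mul q a).symm
      rw [h1, map_smul]
      exact Submodule.smul_mem_smul ha (Phi_mem I J D q hq)
    | zero =>
      intro q _
      rw [zero_mul, map_zero]
      exact Submodule.zero_mem _
    | add x y _ _ hx hy =>
      intro q hq
      rw [add_mul, map_add]
      exact Submodule.add_mem _ (hx q hq) (hy q hq)
    | smul b x _ hx =>
      intro q hq
      have h1 : b • x * q = x * (b * q) := by rw [smul_eq_mul]; ring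
      rw [h1]
      exact hx _ (Ideal.mul_mem_left _ _ hq)
  induction hF using Submodule.mul_induction_on' with
  | mem_mul_mem p hp q hq => exact key p hp q hq
  | add x _ y _ hx hy =>
    rw [map_add]
    exact Submodule.add_mem _ hx hy

theorem main_lower (hh : 0 < h) (I J : Ideal (MvPolynomial (Fin h) k)) (hI : I ≤ irr k h)
    (hJ : J ≤ irr k h) (c : ℕ) (hc : irr k h ^ c ≤ I * J) :
    Module.finrank k (MvPolynomial (Fin h) k ⧸ (I ⊔ J)) + h ≤
      Module.finrank k (img (I * J) (I ⊓ J)) + 1 := by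
  classical
  have hcI : irr k h ^ c ≤ I := hc.trans Ideal.mul_le_left
  have hcJ : irr k h ^ c ≤ J := hc.trans Ideal.mul_le_right
  have fin : Module.Finite k (MvPolynomial (Fin h) k ⧸ (I * J)) := finite_quot (I * J) c hc
  have hX : ∀ (L : Ideal (MvPolynomial (Fin h) k)), irr k h ^ c ≤ L →
      ∀ i : Fin h, (X i : MvPolynomial (Fin h) k) ^ (c + 1) ∈ L := by
    intro L hL i
    rw [pow_succ]
    exact Ideal.mul_mem_right _ _ (hL (Ideal.pow_mem_pow (X_mem_irr i) c))
  set K0 := Submodule.map (Phi0 k h c) ((I ⊔ J).restrictScalars k) with hK0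
  have hbox := finrank_box (k := k) (h := h) c (I ⊔ J) (hX _ (hcI.trans le_sup_left))
  rw [← hK0] at hbox
  -- the spanning family
  let b1 := Module.finBasis k K0
  let b2 := Module.finBasis k (img (I * J) (I ⊓ J))
  have hb1 : ∀ j, ∃ p ∈ I, ∃ q ∈ J, Phi0 k h c (p + q) = (b1 j : (Fin h → Fin (c + 1)) → k) := by
    intro j
    obtain ⟨f, hf, hfj⟩ := Submodule.mem_map.1 (b1 j).2
    obtain ⟨p, hp, q, hq, rfl⟩ := Submodule.mem_sup.1 hf
    exact ⟨p, hp, q, hq, hfj⟩
  choose p hp q hq hpq using hb1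
  have hb2 : ∀ j, ∃ g ∈ I ⊓ J, (Submodule.Quotient.mk g : MvPolynomial (Fin h) k ⧸ (I * J)) =
      (b2 j : MvPolynomial (Fin h) k ⧸ (I * J)) := fun j => (mem_img _ _ _).1 (b2 j).2
  choose g hg hgb using hb2
  let F : Fin (Module.finrank k K0) ⊕ Fin (Module.finrank k (img (I * J) (I ⊓ J))) → PP k h :=
    Sum.elim (fun j => ta k h (p j) + sg k h (q j)) (fun j => ta k h (g j) - sg k h (g j))
  have hFK : ∀ b, F b ∈ KK I J := by
    rintro (j | j)
    · exact Ideal.add_mem _ (ta_mem I J _ (hp j)) (sg_mem I J _ (hq j))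
    · exact Ideal.sub_mem _ (ta_mem I J _ (hg j).1) (sg_mem I J _ (hg j).2)
  have hcC : ∀ (a : k) (x : PP k h), Phi k h c (a • x) = (C a : MvPolynomial (Fin h) k) •
      Phi k h c x := by
    intro a x
    rw [← map_smul]
    congr 1
    rw [MvPolynomial.smul_eq_C_mul, ← algebraMap_smul (MvPolynomial (Fin h) k) a x,
      MvPolynomial.smul_eq_C_mul]
    rfl
  have hspan : NN I J c ≤ Submodule.span (MvPolynomial (Fin h) k)
      (Set.range fun b => Phi k h c (F b)) ⊔ irr k h • NN I J c := by
    rintro _ ⟨G, hG, rfl⟩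
    have hG' : G ∈ KK I J := hG
    -- first step: reduce `ev G`
    obtain ⟨g0, hg0, hg0J, _⟩ := KK_structure I J G hG'
    have hevK : ev k h G ∈ I ⊔ J := by
      have : ev k h G = g0 + (ev k h G - g0) := by ring
      rw [this]
      exact Submodule.add_mem_sup hg0 hg0J
    have hmem : Phi0 k h c (ev k h G) ∈ K0 := ⟨_, hevK, rfl⟩
    let co : Fin (Module.finrank k K0) → k := fun j => b1.repr ⟨_, hmem⟩ j
    have hco : ∑ j, co j • (b1 j : (Fin h → Fin (c + 1)) → k) = Phi0 k h c (ev k h G) := by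
      have := congrArg (fun z : K0 => (z : (Fin h → Fin (c + 1)) → k)) (b1.sum_repr ⟨_, hmem⟩)
      simpa only [Submodule.coe_sum, Submodule.coe_smul] using this
    let G1 : PP k h := G - ∑ j, co j • F (Sum.inl j)
    have hG1 : G1 ∈ KK I J := by
      refine Ideal.sub_mem _ hG' (Ideal.sum_mem _ (fun j _ => ?_))
      rw [← algebraMap_smul (PP k h) (co j) (F (Sum.inl j)), smul_eq_mul]
      exact Ideal.mul_mem_left _ _ (hFK _)
    have hevsmul : ∀ (a : k) (x : PP k h), ev k h (a • x) = a • ev k h x := by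
      intro a x
      rw [← algebraMap_smul (PP k h) a x, smul_eq_mul, map_mul,
        MvPolynomial.smul_eq_C_mul]
      congr 1
      simp [ev, MvPolynomial.algebraMap_eq, IsScalarTower.algebraMap_apply k
        (MvPolynomial (Fin h) k) (PP k h)]
    have hev1 : Phi0 k h c (ev k h G1) = 0 := by
      have h1 : ev k h G1 = ev k h G - ∑ j, co j • (p j + q j) := by
        simp only [G1]
        rw [map_sub, map_sum]
        congr 1
        refine Finset.sum_congr rfl (fun j _ => ?_)
        rw [hevsmul]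
        congr 1
        change ev k h (ta k h (p j) + sg k h (q j)) = _
        rw [map_add, ev_ta, ev_sg]
      rw [h1, map_sub, map_sum, ← hco, sub_eq_zero]
      refine Finset.sum_congr rfl (fun j _ => ?_)
      rw [map_smul, hpq]
    obtain ⟨g1, hg1, hg1J, hg1Z⟩ := KK_structure I J G1 hG1
    have hevJ : ev k h G1 ∈ J := mem_of_Phi0 c J (hX J hcJ) _ hev1
    have hg1J' : g1 ∈ J := by
      have := J.sub_mem hevJ hg1J
      simpa using this
    have hg1m : (Submodule.Quotient.mk g1 : MvPolynomial (Fin h) k ⧸ (I * J)) ∈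
        img (I * J) (I ⊓ J) := (mem_img _ _ _).2 ⟨g1, ⟨hg1, hg1J'⟩, rfl⟩
    let co2 : Fin (Module.finrank k (img (I * J) (I ⊓ J))) → k := fun j => b2.repr ⟨_, hg1m⟩ j
    have hco2 : ∑ j, co2 j • (b2 j : MvPolynomial (Fin h) k ⧸ (I * J)) =
        Submodule.Quotient.mk g1 := by
      have := congrArg (fun z : img (I * J) (I ⊓ J) => (z : MvPolynomial (Fin h) k ⧸ (I * J)))
        (b2.sum_repr ⟨_, hg1m⟩)
      simpa only [Submodule.coe_sum, Submodule.coe_smul] using this
    have hw : g1 - ∑ j, co2 j • g j ∈ I * J := by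
      rw [← Submodule.Quotient.mk_eq_zero, Submodule.Quotient.mk_sub, sub_eq_zero, ← hco2]
      have : (Submodule.Quotient.mk (∑ j, co2 j • g j) : MvPolynomial (Fin h) k ⧸ (I * J)) =
          ∑ j, co2 j • Submodule.Quotient.mk (g j) := by
        rw [← Submodule.mkQ_apply, map_sum]
        rfl
      rw [this]
      exact Finset.sum_congr rfl (fun j _ => by rw [hgb])
    have hwZ := ta_sub_sg_mem I J _ hw
    -- collect
    have e1 : Phi k h c G = ∑ j, (C (co j) : MvPolynomial (Fin h) k) • Phi k h c (F (Sum.inl j)) +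
        ∑ j, (C (co2 j) : MvPolynomial (Fin h) k) • Phi k h c (F (Sum.inr j)) +
        (Phi k h c (ta k h (g1 - ∑ j, co2 j • g j) - sg k h (g1 - ∑ j, co2 j • g j)) +
          Phi k h c (G1 - (ta k h g1 + sg k h (ev k h G1 - g1)))) := by
      have e2 : Phi k h c (sg k h (ev k h G1)) = 0 := Phi_sg c _ hev1
      have e3 : G = ∑ j, co j • F (Sum.inl j) + ∑ j, co2 j • F (Sum.inr j) +
          ((ta k h (g1 - ∑ j, co2 j • g j) - sg k h (g1 - ∑ j, co2 j • g j)) +
          (G1 - (ta k h g1 + sg k h (ev k h G1 - g1)))) + sg k h (ev k h G1) := by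
        have e4 : ∑ j, co2 j • F (Sum.inr j) = ta k h (∑ j, co2 j • g j) -
            sg k h (∑ j, co2 j • g j) := by
          rw [map_sum, map_sum, ← Finset.sum_sub_distrib]
          refine Finset.sum_congr rfl (fun j _ => ?_)
          rw [map_smul, map_smul, ← smul_sub]
          rfl
        rw [e4]
        simp only [map_sub, G1]
        ring
      conv_lhs => rw [e3]
      rw [map_add, map_add, map_add, map_add, map_sum, map_sum, e2, add_zero]
      simp only [hcC]
    rw [e1]
    refine Submodule.add_mem _ ?_ ?_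
    · refine Submodule.mem_sup_left (Submodule.add_mem _ ?_ ?_)
      · exact Submodule.sum_mem _ (fun j _ => Submodule.smul_mem _ _
          (Submodule.subset_span ⟨Sum.inl j, rfl⟩))
      · exact Submodule.sum_mem _ (fun j _ => Submodule.smul_mem _ _
          (Submodule.subset_span ⟨Sum.inr j, rfl⟩))
    · exact Submodule.mem_sup_right (Submodule.add_mem _ (Phi_ZZ I J c _ hwZ)
        (Phi_ZZ I J c _ hg1Z))
  -- Nakayama
  obtain ⟨u, hu1, hu2⟩ := Submodule.exists_sub_one_mem_and_smul_le_of_fg_of_le_sup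
    (I := irr k h) (N := Submodule.span (MvPolynomial (Fin h) k)
      (Set.range fun b => Phi k h c (F b))) (N' := NN I J c) (P := NN I J c)
    (IsNoetherian.noetherian _) le_rfl hspan
  have hu : u ∉ irr k h := by
    intro hmem
    have hprime : (irr k h).IsPrime := irr_isPrime
    have : (1 : MvPolynomial (Fin h) k) ∈ irr k h := by
      have := sub_mem hmem hu1
      simpa using this
    exact hprime.ne_top ((Ideal.eq_top_iff_one _).2 this)
  let e0 : Option {ν : Fin h → Fin (c + 1) // ν ≠ 0} ≃ (Fin h → Fin (c + 1)) :=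
    Equiv.optionSubtypeNe 0
  have he0 : e0 none = 0 := rfl
  have hEN := EN'' (k := k) (h := h) (ι := {ν : Fin h → Fin (c + 1) // ν ≠ 0}) hh
    (fun b i => Phi k h c (F b) (e0 i)) (by
      intro b
      rw [he0, Phi_apply, ex_zero]
      have h1 : constantCoeff (coeff 0 (F b)) = 0 := by
        have h2 : constantCoeff (coeff 0 (F b)) = constantCoeff (ev k h (F b)) := by
          rw [ev, constantCoeff_map]
          rfl
        rw [h2]
        obtain ⟨g0, hg0, hg0J, _⟩ := KK_structure I J (F b) (hFK b)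
        apply constantCoeff_of_mem
        have : ev k h (F b) = g0 + (ev k h (F b) - g0) := by ring
        rw [this]
        exact Ideal.add_mem _ (hI hg0) (hJ hg0J)
      have h2 := sub_C_mem (coeff 0 (F b))
      rwa [h1, map_zero, sub_zero] at h2) u hu (c + c) (by
      intro l i
      have hmemK : (C (X l) : PP k h) ^ (c + c) * monomial (ex (e0 i)) 1 ∈ KK I J :=
        Ideal.mul_mem_right _ _ (z_pow_mem I J c hcI hcJ l)
      have h1 := hu2 (Submodule.smul_mem_pointwise_smul _ u _ (Phi_mem I J c _ hmemK))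
      obtain ⟨a, ha⟩ := (Submodule.mem_span_range_iff_exists_fun _).1 h1
      refine ⟨a, fun i' => ?_⟩
      have h2 := congrFun ha (e0 i')
      rw [Finset.sum_apply] at h2
      simp only [Pi.smul_apply, smul_eq_mul] at h2
      rw [h2, Phi_apply, ← map_pow, coeff_C_mul, coeff_monomial]
      by_cases hii : i' = i
      · subst hii
        rw [if_pos rfl, if_pos rfl, mul_one]
      · rw [if_neg hii, if_neg (fun hh' => hii (e0.injective (ex_injective hh'.symm))), mul_zero,
          mul_zero])
  have hcard1 : Fintype.card {ν : Fin h → Fin (c + 1) // ν ≠ 0} + 1 =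
      Fintype.card (Fin h → Fin (c + 1)) := by
    rw [← Fintype.card_option]
    exact Fintype.card_congr e0
  rw [Fintype.card_sum, Fintype.card_fin, Fintype.card_fin] at hEN
  omega

end Pool.Agent.H74.GB
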