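import Pool.Agent.H6.CMT.Krull

/-! The Eagon-Northcott bound for a matrix over a polynomial ring whose cokernel has finite length
at the origin (deformation and Krull's height theorem). -/

namespace Pool.Agent.H74.GB

open MvPolynomial Pool.Agent.H6.CMT

variable (k : Type*) [Field k] (h : ℕ)

/-- kill all variables but the last one -/
noncomputable def eps : MvPolynomial (Fin (h + 1)) k →ₐ[k] Polynomial k :=
  aeval (fun j => if (j : ℕ) < h then 0 else Polynomial.X)

/-- the inclusion of the polynomial ring in the first `h` variables -/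
noncomputable def inc : MvPolynomial (Fin h) k →ₐ[k] MvPolynomial (Fin (h + 1)) k :=
  rename Fin.castSucc

theorem eps_T : eps k h (X (Fin.last h)) = Polynomial.X := by
  simp [eps]

theorem eps_inc (f : MvPolynomial (Fin h) k) :
    eps k h (inc k h f) = Polynomial.C (constantCoeff f) := by
  induction f using MvPolynomial.induction_on with
  | C a => simp [eps, inc, Polynomial.algebraMap_eq]
  | add p q hp hq => simp only [map_add, hp, hq]
  | mul_X p j hp =>
    rw [map_mul, map_mul, hp, map_mul, constantCoeff_X, mul_zero, map_zero]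
    have : eps k h (inc k h (X j)) = 0 := by
      simp [eps, inc]
    rw [this, mul_zero]

theorem eps_inc_zero (f : MvPolynomial (Fin h) k) (hf : f ∈ irr k h) :
    eps k h (inc k h f) = 0 := by
  rw [eps_inc, constantCoeff_of_mem f hf, map_zero]

theorem ker_killV_le_eps :
    RingHom.ker (killV k (h + 1) h) ≤ RingHom.ker (eps k h) := by
  have hcomp : (eps k h).comp (killV k (h + 1) h) = eps k h := by
    apply MvPolynomial.algHom_ext
    intro j
    rw [AlgHom.comp_apply, killV_X]
    split_ifs with hj
    · simp [eps, hj]
    · rfl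
  intro y hy
  rw [RingHom.mem_ker] at hy ⊢
  have : eps k h y = eps k h (killV k (h + 1) h y) := by
    rw [← AlgHom.comp_apply, hcomp]
  rw [this, hy, map_zero]

theorem ker_eps_height : (h : ℕ∞) ≤ (RingHom.ker (eps k h)).height :=
  (height_ker_killV (k := k) (h := h + 1) h (by omega)).trans
    (Ideal.height_mono (ker_killV_le_eps k h))

theorem eval_eps (y : MvPolynomial (Fin (h + 1)) k) :
    Polynomial.eval 0 (eps k h y) = constantCoeff y := by
  induction y using MvPolynomial.induction_on with
  | C a => simp [eps, Polynomial.algebraMap_eq]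
  | add p q hp hq => rw [map_add, Polynomial.eval_add, hp, hq, map_add]
  | mul_X p j hp =>
    rw [map_mul, Polynomial.eval_mul, map_mul, constantCoeff_X, mul_zero]
    have : Polynomial.eval 0 (eps k h (X j)) = 0 := by
      rw [eps, aeval_X]
      split_ifs
      · simp
      · simp
    rw [this, mul_zero]

theorem ker_eps_lt : RingHom.ker (eps k h) < irr k (h + 1) := by
  refine lt_of_le_of_ne ?_ ?_
  · intro y hy
    rw [RingHom.mem_ker] at hy
    have h1 := eval_eps k h y
    rw [hy, Polynomial.eval_zero] at h1
    have h2 := sub_C_mem y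
    rwa [← h1, map_zero, sub_zero] at h2
  · intro he
    have h1 : (X (Fin.last h) : MvPolynomial (Fin (h + 1)) k) ∈ RingHom.ker (eps k h) := by
      rw [he]
      exact X_mem_irr _
    rw [RingHom.mem_ker, eps_T] at h1
    exact Polynomial.X_ne_zero h1

variable {k h}

theorem inc_not_mem (u : MvPolynomial (Fin h) k) (hu : u ∉ irr k h) :
    inc k h u ∉ irr k (h + 1) := by
  intro hmem
  apply hu
  have h1 : constantCoeff (inc k h u) = 0 := constantCoeff_of_mem _ hmem
  have h2 := eval_eps k h (inc k h u)
  rw [h1, eps_inc, Polynomial.eval_C] at h2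
  have h3 := sub_C_mem u
  rwa [h2, map_zero, sub_zero] at h3

theorem inc_X (l : Fin h) : inc k h (X l) = X l.castSucc := by simp [inc]

/-- the deformed matrix -/
noncomputable def MM {ι : Type*} [DecidableEq ι]
    (φ : ι → Option ι → MvPolynomial (Fin h) k) :
    Matrix (Option ι) (Option ι) (MvPolynomial (Fin (h + 1)) k) := fun i j =>
  match j with
  | none => if i = none then 1 else 0
  | some j => inc k h (φ j i) + if i = some j then X (Fin.last h) else 0

theorem eps_det {ι : Type*} [Fintype ι] [DecidableEq ι]
    (φ : ι → Option ι → MvPolynomial (Fin h) k) (hφ : ∀ j, φ j none ∈ irr k h) :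
    eps k h (MM φ).det ≠ 0 := by
  classical
  have h1 : eps k h (MM φ).det = ((eps k h).toRingHom.mapMatrix (MM φ)).det :=
    RingHom.map_det (eps k h).toRingHom (MM φ)
  rw [h1]
  have h2 : ((eps k h).toRingHom.mapMatrix (MM φ)).det =
      (Matrix.of fun i j : ι => ((eps k h).toRingHom.mapMatrix (MM φ)) (some i) (some j)).det := by
    set N := (eps k h).toRingHom.mapMatrix (MM φ) with hN
    have h4 : Matrix.reindex (Equiv.optionEquivSumPUnit.{0} ι) (Equiv.optionEquivSumPUnit.{0} ι) N =
        Matrix.fromBlocks (Matrix.of fun i j : ι => N (some i) (some j)) 0 0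
          (1 : Matrix PUnit.{1} PUnit.{1} (Polynomial k)) := by
      ext1 i j
      rcases i with i | i <;> rcases j with j | j
      · rfl
      · change N (some i) none = 0
        rw [hN, RingHom.mapMatrix_apply, Matrix.map_apply]
        change eps k h (if some i = none then 1 else 0) = 0
        rw [if_neg (by simp), map_zero]
      · change N none (some j) = 0
        rw [hN, RingHom.mapMatrix_apply, Matrix.map_apply]
        change eps k h (inc k h (φ j none) + if none = some j then X (Fin.last h) else 0) = 0
        rw [if_neg (by simp), add_zero, eps_inc_zero k h _ (hφ j)]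
      · change N none none = (1 : Matrix PUnit.{1} PUnit.{1} (Polynomial k)) i j
        rw [hN, RingHom.mapMatrix_apply, Matrix.map_apply]
        change eps k h (if (none : Option ι) = none then 1 else 0) = _
        rw [if_pos rfl, map_one]
        simp
    rw [← Matrix.det_reindex_self (Equiv.optionEquivSumPUnit.{0} ι) N, h4,
      Matrix.det_fromBlocks_zero₂₁, Matrix.det_one, mul_one]
  rw [h2]
  have h3 : (Matrix.of fun i j : ι => ((eps k h).toRingHom.mapMatrix (MM φ)) (some i) (some j)) =
      Matrix.charmatrix (Matrix.of fun i j : ι => -constantCoeff (φ j (some i))) := by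
    ext1 i j
    rw [Matrix.of_apply, RingHom.mapMatrix_apply, Matrix.map_apply]
    change eps k h (inc k h (φ j (some i)) + if some i = some j then X (Fin.last h) else 0) = _
    rw [map_add, eps_inc]
    by_cases hij : i = j
    · subst hij
      rw [if_pos rfl, eps_T, Matrix.charmatrix_apply_eq]
      simp [add_comm]
    · rw [if_neg (by simpa using hij), Matrix.charmatrix_apply_ne _ _ _ hij]
      simp
  rw [h3]
  exact (Matrix.charpoly_monic _).ne_zero

/-- the Cramer coefficients -/
noncomputable def lam {ι : Type*} [Fintype ι] [DecidableEq ι]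
    (φ : ι → Option ι → MvPolynomial (Fin h) k) (i : Option ι) : MvPolynomial (Fin (h + 1)) k :=
  (MM φ).adjugate none i

theorem lam_none {ι : Type*} [Fintype ι] [DecidableEq ι]
    (φ : ι → Option ι → MvPolynomial (Fin h) k) : lam φ none = (MM φ).det := by
  have h1 := congrFun (congrFun (Matrix.adjugate_mul (MM φ)) none) none
  rw [Matrix.mul_apply, Finset.sum_eq_single none] at h1
  · rw [Matrix.smul_apply, Matrix.one_apply_eq, smul_eq_mul, mul_one] at h1
    rw [← h1]
    change lam φ none = lam φ none * (if (none : Option ι) = none then 1 else 0)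
    rw [if_pos rfl, mul_one]
  · intro b _ hb
    change _ * (if b = none then 1 else 0) = 0
    rw [if_neg hb, mul_zero]
  · intro hn
    exact absurd (Finset.mem_univ _) hn

theorem lam_col {ι : Type*} [Fintype ι] [DecidableEq ι]
    (φ : ι → Option ι → MvPolynomial (Fin h) k) (j : ι) :
    ∑ i, lam φ i * inc k h (φ j i) = -(X (Fin.last h) * lam φ (some j)) := by
  have h1 := congrFun (congrFun (Matrix.adjugate_mul (MM φ)) none) (some j)
  rw [Matrix.mul_apply, Matrix.smul_apply, Matrix.one_apply_ne (by simp), smul_zero] at h1
  have h2 : ∀ i, (MM φ).adjugate none i * MM φ i (some j) =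
      lam φ i * inc k h (φ j i) + lam φ i * (if i = some j then X (Fin.last h) else 0) := by
    intro i
    change lam φ i * (inc k h (φ j i) + if i = some j then X (Fin.last h) else 0) = _
    rw [mul_add]
  rw [Finset.sum_congr rfl (fun i _ => h2 i), Finset.sum_add_distrib] at h1
  rw [eq_neg_iff_add_eq_zero, ← h1]
  congr 1
  rw [Finset.sum_eq_single (some j)]
  · rw [if_pos rfl, mul_comm]
  · intro b _ hb
    rw [if_neg hb, mul_zero]
  · intro hn
    exact absurd (Finset.mem_univ _) hn

theorem eps_lam_col {ι : Type*} [Fintype ι] [DecidableEq ι]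
    (φ : ι → Option ι → MvPolynomial (Fin h) k) (hφ : ∀ j, φ j none ∈ irr k h)
    (ψ : Option ι → MvPolynomial (Fin h) k) (hψ : ψ none ∈ irr k h) :
    eps k h (∑ i, lam φ i * inc k h (ψ i)) = 0 := by
  have h1 : ∑ i, lam φ i * inc k h (ψ i) =
      ((MM φ).updateCol none (fun i => inc k h (ψ i))).det := by
    rw [← Matrix.cramer_apply, Matrix.cramer_eq_adjugate_mulVec, Matrix.mulVec, dotProduct]
    rfl
  rw [h1, show eps k h _ = (eps k h).toRingHom _ from rfl, RingHom.map_det]
  refine Matrix.det_eq_zero_of_row_eq_zero none (fun j => ?_)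
  rw [RingHom.mapMatrix_apply, Matrix.map_apply, Matrix.updateCol_apply]
  split_ifs with hj
  · exact eps_inc_zero k h _ hψ
  · obtain ⟨j, rfl⟩ := Option.ne_none_iff_exists'.1 hj
    change eps k h (inc k h (φ j none) + if none = some j then X (Fin.last h) else 0) = 0
    rw [if_neg (by simp), add_zero, eps_inc_zero k h _ (hφ j)]

end Pool.Agent.H74.GB
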