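import Pool.Agent.H74.GB.EN

/-! The Eagon-Northcott bound for a matrix over a polynomial ring whose cokernel has finite length
at the origin: main theorem. -/

namespace Pool.Agent.H74.GB

open MvPolynomial Pool.Agent.H6.CMT

variable {k : Type*} [Field k] {h : ℕ}

/-- determinant trick -/
theorem det_trick {R : Type*} [CommRing R] {n : Type*} [Fintype n] [DecidableEq n]
    (p : Ideal R) [hp : p.IsPrime] (x T : R) (B : Matrix n n R) (v : n → R) (i0 : n)
    (hv : v i0 ∉ p) (hB : ∀ i, x * v i - T * ∑ j, B i j * v j ∈ p) :
    ∃ N : ℕ, x ^ N ∈ p ⊔ Ideal.span {T} := by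
  classical
  let f := Ideal.Quotient.mk p
  let M : Matrix n n (R ⧸ p) := f x • (1 : Matrix n n (R ⧸ p)) - f T • f.mapMatrix B
  have h1 : M.mulVec (fun i => f (v i)) = 0 := by
    funext i
    have h2 : f (x * v i - T * ∑ j, B i j * v j) = 0 := Ideal.Quotient.eq_zero_iff_mem.2 (hB i)
    rw [map_sub, map_mul, map_mul, map_sum] at h2
    rw [Pi.zero_apply, ← h2]
    simp only [M]
    rw [Matrix.sub_mulVec, Matrix.smul_mulVec, Matrix.smul_mulVec, Matrix.one_mulVec,
      Pi.sub_apply, Pi.smul_apply, Pi.smul_apply, smul_eq_mul, smul_eq_mul]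
    congr 2
  have h3 : M.det = 0 := by
    rw [← Matrix.exists_mulVec_eq_zero_iff]
    refine ⟨fun i => f (v i), ?_, h1⟩
    intro h0
    apply hv
    exact Ideal.Quotient.eq_zero_iff_mem.1 (congrFun h0 i0)
  refine ⟨Fintype.card n, ?_⟩
  have hle : p ≤ p ⊔ Ideal.span {T} := le_sup_left
  let g : (R ⧸ p) →+* (R ⧸ (p ⊔ Ideal.span {T})) := Ideal.Quotient.factor hle
  have h4 : g M.det = 0 := by rw [h3, map_zero]
  have hT : g (f T) = 0 := by
    change Ideal.Quotient.mk (p ⊔ Ideal.span {T}) T = 0
    exact Ideal.Quotient.eq_zero_iff_mem.2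
      ((le_sup_right : Ideal.span {T} ≤ _) (Ideal.mem_span_singleton_self T))
  have h5 : g.mapMatrix M = g (f x) • (1 : Matrix n n _) := by
    ext1 i j
    simp only [M, RingHom.mapMatrix_apply, Matrix.map_apply, Matrix.sub_apply, Matrix.smul_apply,
      smul_eq_mul, map_sub, map_mul, hT, zero_mul, sub_zero]
    congr 1
    by_cases hij : i = j
    · subst hij; simp
    · simp [Matrix.one_apply_ne hij]
  rw [RingHom.map_det, h5, Matrix.det_smul, Matrix.det_one, mul_one] at h4
  apply Ideal.Quotient.eq_zero_iff_mem.1
  rw [map_pow]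
  exact h4

theorem EN {ι κ : Type*} [Fintype ι] [DecidableEq ι] [Fintype κ]
    (φ : ι → Option ι → MvPolynomial (Fin h) k) (ψ : κ → Option ι → MvPolynomial (Fin h) k)
    (hφ : ∀ j, φ j none ∈ irr k h) (hψ : ∀ t, ψ t none ∈ irr k h)
    (u : MvPolynomial (Fin h) k) (hu : u ∉ irr k h) (n : ℕ)
    (hgen : ∀ (l : Fin h) (i : Option ι), ∃ (a : ι → MvPolynomial (Fin h) k)
      (a' : κ → MvPolynomial (Fin h) k), ∀ i', ∑ j, a j * φ j i' + ∑ t, a' t * ψ t i' =
        if i' = i then u * X l ^ n else 0) :
    h ≤ Fintype.card κ := by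
  classical
  set P : Ideal (MvPolynomial (Fin (h + 1)) k) := RingHom.ker (eps k h) with hP
  have hPprime : P.IsPrime := RingHom.ker_isPrime _
  set T : MvPolynomial (Fin (h + 1)) k := X (Fin.last h) with hT
  let b : κ → MvPolynomial (Fin (h + 1)) k := fun t => ∑ i, lam φ i * inc k h (ψ t i)
  have hbP : ∀ t, b t ∈ P := by
    intro t
    rw [hP, RingHom.mem_ker]
    exact eps_lam_col φ hφ (ψ t) (hψ t)
  have hlamP : lam φ none ∉ P := by
    rw [lam_none, hP, RingHom.mem_ker]
    exact eps_det φ hφ
  have hmprime : (irr k (h + 1)).IsPrime := irr_isPrime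
  have hmin : P ∈ (Ideal.span (Set.range b)).minimalPrimes := by
    refine ⟨⟨hPprime, Ideal.span_le.2 (by rintro _ ⟨t, rfl⟩; exact hbP t)⟩, ?_⟩
    rintro p ⟨hp, hbp⟩ hpP
    have hlamp : lam φ none ∉ p := fun hh => hlamP (hpP hh)
    -- radical computation
    have hrad : ∀ l : Fin h, inc k h u * X l.castSucc ∈
        (Ideal.span (insert T (p : Set (MvPolynomial (Fin (h + 1)) k)))).radical := by
      intro l
      choose a a' haa using hgen l
      obtain ⟨N, hN⟩ := det_trick p (inc k h u * X l.castSucc ^ n) T
        (fun i j => match j with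
          | none => 0
          | some j => -inc k h (a i j)) (lam φ) none hlamp (by
          intro i
          have h1 : inc k h u * X l.castSucc ^ n * lam φ i =
              ∑ i', lam φ i' * inc k h (∑ j, a i j * φ j i' + ∑ t, a' i t * ψ t i') := by
            rw [Finset.sum_eq_single i]
            · rw [haa i i, if_pos rfl, map_mul, map_pow, inc_X]; ring
            · intro i' _ hi'
              rw [haa i i', if_neg hi', map_zero, mul_zero]
            · intro hn
              exact absurd (Finset.mem_univ _) hn
          have h2 : ∑ i', lam φ i' * inc k h (∑ j, a i j * φ j i' + ∑ t, a' i t * ψ t i') =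
              ∑ j, inc k h (a i j) * ∑ i', lam φ i' * inc k h (φ j i') +
                ∑ t, inc k h (a' i t) * b t := by
            simp only [map_add, map_sum, map_mul, mul_add, Finset.mul_sum, Finset.sum_add_distrib,
              b]
            congr 1
            · rw [Finset.sum_comm]
              refine Finset.sum_congr rfl (fun j _ => Finset.sum_congr rfl (fun i' _ => ?_))
              ring
            · rw [Finset.sum_comm]
              refine Finset.sum_congr rfl (fun j _ => Finset.sum_congr rfl (fun i' _ => ?_))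
              ring
          rw [h1, h2, Fintype.sum_option]
          simp only [lam_col, zero_mul, zero_add]
          have h3 : ∑ j, inc k h (a i j) * -(X (Fin.last h) * lam φ (some j)) +
              ∑ t, inc k h (a' i t) * b t -
              T * ∑ j, -inc k h (a i j) * lam φ (some j) = ∑ t, inc k h (a' i t) * b t := by
            rw [Finset.mul_sum, add_sub_right_comm, ← Finset.sum_sub_distrib]
            have : ∀ j, inc k h (a i j) * -(X (Fin.last h) * lam φ (some j)) -
                T * (-inc k h (a i j) * lam φ (some j)) = 0 := by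
              intro j
              rw [← hT]
              ring
            rw [Finset.sum_congr rfl (fun j _ => this j), Finset.sum_const_zero, zero_add]
          rw [h3]
          exact Ideal.sum_mem _ (fun t _ => Ideal.mul_mem_left _ _
            (hbp (Ideal.subset_span ⟨t, rfl⟩))))
      have hsup : p ⊔ Ideal.span {T} ≤
          Ideal.span (insert T (p : Set (MvPolynomial (Fin (h + 1)) k))) := by
        refine sup_le ?_ ?_
        · intro y hy
          exact Ideal.subset_span (Set.mem_insert_of_mem _ hy)
        · exact Ideal.span_mono (by simp)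
      have h4 : inc k h u * X l.castSucc ^ n ∈
          (Ideal.span (insert T (p : Set (MvPolynomial (Fin (h + 1)) k)))).radical :=
        ⟨N, hsup hN⟩
      have h5 : (inc k h u * X l.castSucc) ^ (n + 1) ∈
          (Ideal.span (insert T (p : Set (MvPolynomial (Fin (h + 1)) k)))).radical := by
        have : (inc k h u * X l.castSucc) ^ (n + 1) =
            (inc k h u ^ n * X l.castSucc) * (inc k h u * X l.castSucc ^ n) := by ring
        rw [this]
        exact Ideal.mul_mem_left _ _ h4
      exact Ideal.mem_radical_of_pow_mem h5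
    have hmm : irr k (h + 1) ∈ (Ideal.span (insert T
        (Set.range fun l : Fin h => inc k h u * X l.castSucc))).minimalPrimes := by
      refine ⟨⟨hmprime, ?_⟩, ?_⟩
      · rw [Ideal.span_le, Set.insert_subset_iff]
        refine ⟨X_mem_irr _, ?_⟩
        rintro _ ⟨l, rfl⟩
        exact Ideal.mul_mem_left _ _ (X_mem_irr _)
      · rintro q ⟨hq, hsq⟩ hqm
        rw [irr, Ideal.span_le]
        rintro _ ⟨j, rfl⟩
        rcases Fin.eq_castSucc_or_eq_last j with ⟨l, rfl⟩ | rfl
        · have h6 : inc k h u * X l.castSucc ∈ q :=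
            hsq (Ideal.subset_span (Set.mem_insert_of_mem _ ⟨l, rfl⟩))
          rcases hq.mem_or_mem h6 with h7 | h7
          · exact absurd (hqm h7) (inc_not_mem u hu)
          · exact h7
        · exact hsq (Ideal.subset_span (Set.mem_insert _ _))
    have h8 := Ideal.mem_minimalPrimes_span_of_mem_minimalPrimes_span_insert (q := P)
      (p := irr k (h + 1)) (ker_eps_lt k h) T _ hmm (p : Set (MvPolynomial (Fin (h + 1)) k)) hpP
      (by
        rintro _ ⟨l, rfl⟩
        exact hrad l)
    rw [Ideal.span_eq] at h8
    exact h8.2 ⟨hp, le_rfl⟩ hpP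
  have h9 : P ∈ (Ideal.span ((Finset.univ.image b : Finset (MvPolynomial (Fin (h + 1)) k)) :
      Set (MvPolynomial (Fin (h + 1)) k))).minimalPrimes := by
    rw [Finset.coe_image, Finset.coe_univ, Set.image_univ]
    exact hmin
  have h10 := Ideal.height_le_card_of_mem_minimalPrimes_span_finset h9
  have h11 := (ker_eps_height k h).trans h10
  have h12 : h ≤ (Finset.univ.image b).card := by exact_mod_cast h11
  exact h12.trans (Finset.card_image_le.trans_eq Finset.card_univ)

/-- the Eagon-Northcott bound: a module with `|ι|+1` generators and `β` relations which is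
nonzero and of finite length at the origin of `k^h` has `β ≥ |ι| + h` -/
theorem EN' {ι : Type*} [Fintype ι] [DecidableEq ι] (hh : 0 < h) {β : ℕ}
    (χ : Fin β → Option ι → MvPolynomial (Fin h) k) (hχ : ∀ j, χ j none ∈ irr k h)
    (u : MvPolynomial (Fin h) k) (hu : u ∉ irr k h) (n : ℕ)
    (hgen : ∀ (l : Fin h) (i : Option ι), ∃ a : Fin β → MvPolynomial (Fin h) k,
      ∀ i', ∑ j, a j * χ j i' = if i' = i then u * X l ^ n else 0) :
    Fintype.card ι + h ≤ β := by
  classical
  by_cases hc : Fintype.card ι ≤ β
  · let e : Fin β ≃ ι ⊕ Fin (β - Fintype.card ι) :=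
      Fintype.equivOfCardEq (by rw [Fintype.card_sum, Fintype.card_fin, Fintype.card_fin]; omega)
    have h1 := EN (fun i => χ (e.symm (Sum.inl i))) (fun t => χ (e.symm (Sum.inr t)))
      (fun i => hχ _) (fun t => hχ _) u hu n (by
        intro l i
        obtain ⟨a, ha⟩ := hgen l i
        refine ⟨fun i => a (e.symm (Sum.inl i)), fun t => a (e.symm (Sum.inr t)), fun i' => ?_⟩
        rw [← ha i', ← Equiv.sum_comp e.symm, Fintype.sum_sum_type])
    rw [Fintype.card_fin] at h1
    omega
  · exfalso
    have hle : Fintype.card (Fin β) ≤ Fintype.card ι := by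
      rw [Fintype.card_fin]; omega
    obtain ⟨f⟩ := Function.Embedding.nonempty_of_card_le hle
    have h1 := EN (κ := Fin 0) (fun i => Function.extend f χ 0 i) (fun t => t.elim0)
      (fun i => by
        by_cases hi : ∃ j, f j = i
        · obtain ⟨j, rfl⟩ := hi
          rw [f.injective.extend_apply]
          exact hχ j
        · rw [Function.extend_apply' _ _ _ hi]
          exact Ideal.zero_mem _) (fun t => t.elim0) u hu n (by
        intro l i
        obtain ⟨a, ha⟩ := hgen l i
        refine ⟨fun i => Function.extend f a 0 i, fun t => t.elim0, fun i' => ?_⟩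
        rw [← ha i', Fin.sum_univ_zero, add_zero]
        symm
        refine Finset.sum_of_injOn f f.injective.injOn (fun _ _ => Finset.mem_univ _) ?_ ?_
        · intro i _ hi
          change Function.extend f a 0 i * Function.extend f χ 0 i i' = 0
          rw [Function.extend_apply' a, Pi.zero_apply, zero_mul]
          rintro ⟨j, rfl⟩
          exact hi ⟨j, Finset.mem_coe.2 (Finset.mem_univ _), rfl⟩
        · intro j _
          change a j * χ j i' = Function.extend f a 0 (f j) * Function.extend f χ 0 (f j) i'
          rw [f.injective.extend_apply, f.injective.extend_apply])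
    rw [Fintype.card_fin] at h1
    omega

end Pool.Agent.H74.GB
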